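import Pool.Agent.R299.Mey.Final

open Set MeasureTheory Filter Topology
open scoped ENNReal

namespace Pool.Agent.Results.MP_fa9df5_co.ThreePieces

open Pool.Agent.R299.Mey

/-- A piece cut from D by a closed set containing no maximal section is smaller. -/
lemma piece {D : Set E3} (hD : IsCompact D) (hint : (interior D).Nonempty) {K : Set E3}
    (hK : IsClosed K) (h : ¬ HM D (sig D) K) : sig (D ∩ K) < sig D :=
  sig_lt hD hK (sig_pos hint) h

lemma disj {u : E3} (hu : u ≠ 0) {t : ℝ} {A A' : Set E3} (h : A ⊆ HS u t)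
    (h' : A' ⊆ HS (-u) (-t)) : Disjoint (interior A) (interior A') := by
  rw [Set.disjoint_left]
  intro y hy hy'
  have h1 := int_lt hu h hy
  have h2 := int_lt (neg_ne_zero.2 hu) h' hy'
  rw [inner_neg_right] at h2
  linarith

theorem result (D : Set E3) (hD : IsCompact D) (hconv : Convex ℝ D)
    (hint : (interior D).Nonempty) : ∃ D₁ D₂ D₃ : Set E3,
      (IsClosed D₁ ∧ Convex ℝ D₁) ∧ (IsClosed D₂ ∧ Convex ℝ D₂) ∧ (IsClosed D₃ ∧ Convex ℝ D₃) ∧
      D₁ ∪ D₂ ∪ D₃ = D ∧ Disjoint (interior D₁) (interior D₂) ∧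
      Disjoint (interior D₁) (interior D₃) ∧ Disjoint (interior D₂) (interior D₃) ∧
      sig D₁ < sig D ∧ sig D₂ < sig D ∧ sig D₃ < sig D := by
  have hcl := hD.isClosed
  have hpos := sig_pos hint
  have hfin := sig_fin hD
  by_cases hcase : ∃ (u : E3) (t : ℝ), ‖u‖ = 1 ∧ ¬ P D u t ∧ ¬ P D (-u) (-t)
  · -- two pieces are enough
    obtain ⟨u, t, hu, h1, h2⟩ := hcase
    have hu0 : u ≠ 0 := by rintro rfl; simp at hu
    refine ⟨D ∩ HS u t, D ∩ HS (-u) (-t), ∅, ⟨hcl.inter (HS_closed _ _),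
      hconv.inter (HS_convex _ _)⟩, ⟨hcl.inter (HS_closed _ _), hconv.inter (HS_convex _ _)⟩,
      ⟨isClosed_empty, convex_empty⟩, ?_, disj hu0 inter_subset_right inter_subset_right, ?_, ?_,
      piece hD hint (HS_closed _ _) h1, piece hD hint (HS_closed _ _) h2, ?_⟩
    · rw [union_empty, ← inter_union_distrib_left, inter_eq_left]
      intro x _
      rcases le_total t (inner ℝ x u) with h | h
      · exact Or.inl h
      · refine Or.inr ?_
        show -t ≤ inner ℝ x (-u)
        rw [inner_neg_right]; linarith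
    · rw [interior_empty]; exact disjoint_empty _
    · rw [interior_empty]; exact disjoint_empty _
    · refine lt_of_le_of_lt (sig_le fun x e f _ => ?_) hpos
      simp [slice]
  · push Not at hcase
    obtain ⟨u₀, c, hu₀, hP, htop⟩ := exists_top hD hint
    have hu00 : u₀ ≠ 0 := by rintro rfl; simp at hu₀
    -- the level is also the lowest one from below
    have hN : P D (-u₀) (-c) := by
      have hclosed : IsClosed {t : ℝ | P D (-u₀) (-t)} :=
        (P_closed hD).preimage (f := fun t : ℝ => ((-u₀, -t) : E3 × ℝ)) (by fun_prop)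
      have hsub : Ioi c ⊆ {t : ℝ | P D (-u₀) (-t)} := by
        intro t ht
        refine hcase u₀ t hu₀ fun hPt => ?_
        exact absurd (htop u₀ t hu₀ hPt) (not_le.2 ht)
      have := closure_minimal hsub hclosed
      rw [closure_Ioi] at this
      exact this (mem_Ici.2 le_rfl)
    set q : E3 := c • u₀ with hq
    have huu : inner ℝ u₀ u₀ = (1 : ℝ) := by rw [real_inner_self_eq_norm_sq, hu₀]; norm_num
    have hqu : inner ℝ q u₀ = c := by rw [hq, inner_smul_left, huu]; simp
    obtain ⟨x₁, hx₁D, hx₁c, hx₁q⟩ := exists_x1 hD hconv hint hP hN q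
    set v : E3 := q - x₁ with hv
    have hvu : inner ℝ u₀ v = (0 : ℝ) := by
      rw [real_inner_comm, hv, inner_sub_left, hqu, hx₁c, sub_self]
    have hv0 : v ≠ 0 := by
      intro h0
      exact hx₁q (sub_eq_zero.1 h0).symm
    have hvv : 0 < ‖v‖ ^ 2 := by positivity
    -- (d) a tilted wedge without maximal section
    have hd : ∃ δ : ℝ, 0 < δ ∧ ¬ HM D (sig D)
        {y | 0 ≤ inner ℝ (y - q) u₀ ∧ 0 ≤ inner ℝ (y - q) (-u₀ + δ • v)} := by
      by_contra hcon
      push Not at hcon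
      let C : Set (ℝ × E3) := {z | 0 ≤ inner ℝ (z.2 - q) u₀ ∧
        (0 ≤ inner ℝ (z.2 - q) (-u₀ + z.1 • v) ∧ 0 ≤ inner ℝ (z.2 - q) v)}
      have c1 : IsClosed {z : ℝ × E3 | 0 ≤ inner ℝ (z.2 - q) u₀} :=
        isClosed_le continuous_const (by fun_prop)
      have c2 : IsClosed {z : ℝ × E3 | 0 ≤ inner ℝ (z.2 - q) (-u₀ + z.1 • v)} :=
        isClosed_le continuous_const (by fun_prop)
      have c3 : IsClosed {z : ℝ × E3 | 0 ≤ inner ℝ (z.2 - q) v} :=
        isClosed_le continuous_const (by fun_prop)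
      have hC : IsClosed C := c1.inter (c2.inter c3)
      have hHC := HM_closed hD hC (sig D)
      have hsub : Ioi (0 : ℝ) ⊆ {δ : ℝ | HM D (sig D) {y | (δ, y) ∈ C}} := by
        intro δ hδ
        have hδ' : 0 < δ := hδ
        refine HM_mono ?_ (hcon δ hδ')
        rintro y ⟨h1, h2⟩
        refine ⟨h1, h2, ?_⟩
        rw [inner_add_right, inner_neg_right, inner_smul_right] at h2
        have h3 : 0 ≤ δ * inner ℝ (y - q) v := by linarith
        exact nonneg_of_mul_nonneg_right h3 hδ'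
      have h0 := closure_minimal hsub hHC
      rw [closure_Ioi] at h0
      have h00 : HM D (sig D) {y | ((0 : ℝ), y) ∈ C} := h0 (mem_Ici.2 le_rfl)
      have hKc : IsClosed {y : E3 | ((0 : ℝ), y) ∈ C} := hC.preimage (by fun_prop)
      obtain ⟨θ, hθ, hvol, hK⟩ := full hconv hpos hfin hKc hcl h00
      have hplane : ∀ p ∈ slice D θ.1 θ.2.1 θ.2.2,
          inner ℝ (θ.1 + p.1 • θ.2.1 + p.2 • θ.2.2 - q) u₀ = (0 : ℝ) := by
        intro p hp
        obtain ⟨a1, a2, _⟩ := hK p hp
        simp only [zero_smul, add_zero, inner_neg_right] at a1 a2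
        linarith
      -- the directions are orthogonal to u₀
      obtain ⟨p₀, hp₀⟩ := interior_slice hconv (x := θ.1) (e := θ.2.1) (f := θ.2.2)
        (by rw [hvol]; exact hpos)
      have hdir : ∀ w : ℝ × ℝ, inner ℝ (w.1 • θ.2.1 + w.2 • θ.2.2) u₀ = (0 : ℝ) := by
        intro w
        have ht : Tendsto (fun ε : ℝ => p₀ + ε • w) (𝓝[>] 0) (𝓝 p₀) := by
          have : Tendsto (fun ε : ℝ => p₀ + ε • w) (𝓝 0) (𝓝 (p₀ + (0 : ℝ) • w)) :=
            (continuous_const.add (continuous_id.smul continuous_const)).tendsto 0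
          rw [zero_smul, add_zero] at this
          exact this.mono_left nhdsWithin_le_nhds
        obtain ⟨ε, hε1, hε2⟩ := ((ht.eventually (isOpen_interior.mem_nhds hp₀)).and
          self_mem_nhdsWithin).exists
        have hε2' : 0 < ε := hε2
        have b1 := hplane _ (interior_subset hε1)
        have b2 := hplane _ (interior_subset hp₀)
        have b3 : θ.1 + (p₀ + ε • w).1 • θ.2.1 + (p₀ + ε • w).2 • θ.2.2 - q =
            (θ.1 + p₀.1 • θ.2.1 + p₀.2 • θ.2.2 - q) + ε • (w.1 • θ.2.1 + w.2 • θ.2.2) := by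
          simp only [Prod.fst_add, Prod.snd_add, Prod.smul_fst, Prod.smul_snd, smul_eq_mul]
          module
        rw [b3, inner_add_left, b2, zero_add, inner_smul_left] at b1
        simp only [conj_trivial] at b1
        exact (mul_eq_zero.1 b1).resolve_left hε2'.ne'
      have he : inner ℝ u₀ θ.2.1 = (0 : ℝ) := by
        rw [real_inner_comm]; simpa using hdir (1, 0)
      have hf : inner ℝ u₀ θ.2.2 = (0 : ℝ) := by
        rw [real_inner_comm]; simpa using hdir (0, 1)
      have h00' : ((0, 0) : ℝ × ℝ) ∈ slice D θ.1 θ.2.1 θ.2.2 := by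
        show θ.1 + (0 : ℝ) • θ.2.1 + (0 : ℝ) • θ.2.2 ∈ D
        simpa using hθ.1
      have hbase : inner ℝ (θ.1 - q) u₀ = (0 : ℝ) := by
        have := hplane _ h00'
        simpa using this
      have hy : inner ℝ u₀ (x₁ - θ.1) = (0 : ℝ) := by
        have e1 : x₁ - θ.1 = (x₁ - q) - (θ.1 - q) := by abel
        rw [e1, real_inner_comm, inner_sub_left, hbase, inner_sub_left, hx₁c, hqu]
        ring
      obtain ⟨p, hp⟩ := in_span hθ.2 hu00 he hf hy
      have hx₁p : x₁ = θ.1 + p.1 • θ.2.1 + p.2 • θ.2.2 := by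
        rw [add_assoc, ← hp]; abel
      have hpD : p ∈ slice D θ.1 θ.2.1 θ.2.2 := by
        show θ.1 + p.1 • θ.2.1 + p.2 • θ.2.2 ∈ D
        rw [← hx₁p]; exact hx₁D
      obtain ⟨_, _, a3⟩ := hK p hpD
      simp only at a3
      rw [← hx₁p] at a3
      have e2 : x₁ - q = -v := by rw [hv]; abel
      rw [e2, inner_neg_left, real_inner_self_eq_norm_sq] at a3
      linarith
    obtain ⟨δ, hδ, hdδ⟩ := hd
    set w : E3 := -u₀ + δ • v with hw
    have hwu : inner ℝ u₀ w = (-1 : ℝ) := by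
      rw [hw, inner_add_right, inner_neg_right, inner_smul_right, huu, hvu]; ring
    have hw0 : w ≠ 0 := by
      intro h0
      rw [h0, inner_zero_right] at hwu
      norm_num at hwu
    -- (e)
    obtain ⟨ε, hε, heε⟩ : ∃ ε : ℝ, 0 < ε ∧ ¬ HM D (sig D)
        {y | -ε ≤ inner ℝ (y - q) u₀ ∧ -ε ≤ inner ℝ (y - q) w} := by
      let C : Set (ℝ × E3) := {z | -z.1 ≤ inner ℝ (z.2 - q) u₀ ∧ -z.1 ≤ inner ℝ (z.2 - q) w}
      have c1 : IsClosed {z : ℝ × E3 | -z.1 ≤ inner ℝ (z.2 - q) u₀} :=
        isClosed_le (by fun_prop) (by fun_prop)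
      have c2 : IsClosed {z : ℝ × E3 | -z.1 ≤ inner ℝ (z.2 - q) w} :=
        isClosed_le (by fun_prop) (by fun_prop)
      have hC : IsClosed C := c1.inter c2
      have hHC := (HM_closed hD hC (sig D)).isOpen_compl
      have h0 : (0 : ℝ) ∈ {ε : ℝ | HM D (sig D) {y | (ε, y) ∈ C}}ᶜ := by
        intro h
        apply hdδ
        refine HM_mono ?_ h
        rintro y ⟨h1, h2⟩
        simp only [neg_zero] at h1 h2
        exact ⟨h1, h2⟩
      obtain ⟨r, hr, hball⟩ := Metric.mem_nhds_iff.1 (hHC.mem_nhds h0)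
      have h1 : r / 2 ∈ Metric.ball (0 : ℝ) r := by
        rw [mem_ball_zero_iff, Real.norm_eq_abs, abs_of_pos (by linarith)]; linarith
      exact ⟨r / 2, by linarith, hball h1⟩
    -- (f)
    have hf0 : ¬ HM D (sig D) {y | 0 ≤ inner ℝ (y - q) u₀ ∧ inner ℝ (y - q) w ≤ -ε} := by
      intro h
      have c1 : IsClosed {y : E3 | 0 ≤ inner ℝ (y - q) u₀} :=
        isClosed_le continuous_const (by fun_prop)
      have c2 : IsClosed {y : E3 | inner ℝ (y - q) w ≤ -ε} :=
        isClosed_le (by fun_prop) continuous_const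
      have hKc : IsClosed {y : E3 | 0 ≤ inner ℝ (y - q) u₀ ∧ inner ℝ (y - q) w ≤ -ε} :=
        c1.inter c2
      obtain ⟨θ, hθ, hvol, hK⟩ := full hconv hpos hfin hKc hcl h
      obtain ⟨p, hp, hpq⟩ := contains_q hD hconv hint hu₀ htop hθ hvol fun p hp => by
        have h1 := (hK p hp).1
        show c ≤ inner ℝ _ u₀
        rw [inner_sub_left, hqu] at h1
        linarith
      have h2 := (hK p hp).2
      rw [← hpq, ← hq, sub_self, inner_zero_left] at h2
      linarith
    obtain ⟨η, hη, hηε, hfη⟩ : ∃ η : ℝ, 0 < η ∧ η ≤ ε ∧ ¬ HM D (sig D)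
        {y | -η ≤ inner ℝ (y - q) u₀ ∧ inner ℝ (y - q) w ≤ -ε} := by
      let C : Set (ℝ × E3) := {z | -z.1 ≤ inner ℝ (z.2 - q) u₀ ∧ inner ℝ (z.2 - q) w ≤ -ε}
      have c1 : IsClosed {z : ℝ × E3 | -z.1 ≤ inner ℝ (z.2 - q) u₀} :=
        isClosed_le (by fun_prop) (by fun_prop)
      have c2 : IsClosed {z : ℝ × E3 | inner ℝ (z.2 - q) w ≤ -ε} :=
        isClosed_le (by fun_prop) continuous_const
      have hC : IsClosed C := c1.inter c2
      have hHC := (HM_closed hD hC (sig D)).isOpen_compl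
      have h0 : (0 : ℝ) ∈ {η : ℝ | HM D (sig D) {y | (η, y) ∈ C}}ᶜ := by
        intro h
        apply hf0
        refine HM_mono ?_ h
        rintro y ⟨h1, h2⟩
        simp only [neg_zero] at h1
        exact ⟨h1, h2⟩
      obtain ⟨r, hr, hball⟩ := Metric.mem_nhds_iff.1 (hHC.mem_nhds h0)
      have hm0 : 0 < min (r / 2) ε := lt_min (by linarith) hε
      have h1 : min (r / 2) ε ∈ Metric.ball (0 : ℝ) r := by
        rw [mem_ball_zero_iff, Real.norm_eq_abs, abs_of_pos hm0]
        exact lt_of_le_of_lt (min_le_left _ _) (by linarith)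
      exact ⟨min (r / 2) ε, hm0, min_le_right _ _, hball h1⟩
    -- the three pieces
    set κ : ℝ := inner ℝ q w with hκ
    have g1 : ¬ HM D (sig D) (HS (-u₀) (-(c - η))) := fun h =>
      no_slab hD hconv hint (by linarith : c - η < c) hP h
    have g2 : ¬ HM D (sig D) (HS u₀ (c - η) ∩ HS w (κ - ε)) := by
      intro h
      apply heε
      refine HM_mono ?_ h
      rintro y ⟨h1, h2⟩
      have h1' : c - η ≤ inner ℝ y u₀ := h1
      have h2' : κ - ε ≤ inner ℝ y w := h2
      refine ⟨?_, ?_⟩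
      · rw [inner_sub_left, hqu]; linarith
      · rw [inner_sub_left, ← hκ]; linarith
    have g3 : ¬ HM D (sig D) (HS u₀ (c - η) ∩ HS (-w) (-(κ - ε))) := by
      intro h
      apply hfη
      refine HM_mono ?_ h
      rintro y ⟨h1, h2⟩
      have h1' : c - η ≤ inner ℝ y u₀ := h1
      have h2' : -(κ - ε) ≤ inner ℝ y (-w) := h2
      rw [inner_neg_right] at h2'
      refine ⟨?_, ?_⟩
      · rw [inner_sub_left, hqu]; linarith
      · rw [inner_sub_left, ← hκ]; linarith
    refine ⟨D ∩ HS (-u₀) (-(c - η)), D ∩ (HS u₀ (c - η) ∩ HS w (κ - ε)),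
      D ∩ (HS u₀ (c - η) ∩ HS (-w) (-(κ - ε))),
      ⟨hcl.inter (HS_closed _ _), hconv.inter (HS_convex _ _)⟩,
      ⟨hcl.inter ((HS_closed _ _).inter (HS_closed _ _)),
        hconv.inter ((HS_convex _ _).inter (HS_convex _ _))⟩,
      ⟨hcl.inter ((HS_closed _ _).inter (HS_closed _ _)),
        hconv.inter ((HS_convex _ _).inter (HS_convex _ _))⟩, ?_, ?_, ?_, ?_,
      piece hD hint (HS_closed _ _) g1,
      piece hD hint ((HS_closed _ _).inter (HS_closed _ _)) g2,
      piece hD hint ((HS_closed _ _).inter (HS_closed _ _)) g3⟩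
    · ext x
      constructor
      · rintro ((h | h) | h) <;> exact h.1
      · intro hx
        rcases le_total (c - η) (inner ℝ x u₀) with h1 | h1
        · rcases le_total (κ - ε) (inner ℝ x w) with h2 | h2
          · exact Or.inl (Or.inr ⟨hx, h1, h2⟩)
          · refine Or.inr ⟨hx, h1, ?_⟩
            show -(κ - ε) ≤ inner ℝ x (-w)
            rw [inner_neg_right]; linarith
        · refine Or.inl (Or.inl ⟨hx, ?_⟩)
          show -(c - η) ≤ inner ℝ x (-u₀)
          rw [inner_neg_right]; linarith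
    · exact (disj hu00 (fun x hx => hx.2.1) fun x hx => hx.2).symm
    · exact (disj hu00 (fun x hx => hx.2.1) fun x hx => hx.2).symm
    · exact disj hw0 (fun x hx => hx.2.2) fun x hx => hx.2.2

end Pool.Agent.Results.MP_fa9df5_co.ThreePieces
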